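import Mathlib
import Pool.Agent.helper85.PG.Spec5
import Pool.Agent.helper85.PG.Basic
import Pool.Agent.helper51.PG.FND

/-! pg:FNE (Theorem C: one set of small doubling, the other set arbitrary, below one third). -/

set_option autoImplicit false

namespace Pool.Agent.helper85.PG

open Module Pointwise

/-- the case of a set `A` of positive density. -/
theorem FNE_dense (hTMO : TMO_stmt) (C₂ : ℝ) (hC₂ : 1 ≤ C₂) : ∃ p₀ : ℕ, ∀ (p : ℕ) [Fact p.Prime],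
    p₀ ≤ p → ∀ A B : Finset (ZMod p), (p : ℝ) ≤ C₂ * (A.card : ℝ) →
    (p : ℝ) ^ (1 / 4 : ℝ) ≤ (B.card : ℝ) →
    ∀ χ : MulChar (ZMod p) ℂ, χ ≠ 1 → ∀ β : ZMod p → ℂ, (∀ b, ‖β b‖ ≤ 1) →
      ∑ a ∈ A, ‖∑ b ∈ B, β b * χ (a + b)‖ ≤
        (p : ℝ) ^ (-(1 / 16 : ℝ)) * ((A.card : ℝ) * (B.card : ℝ)) := by
  obtain ⟨p₁, hp₁⟩ := FNB_large (1 / 8) (4 * C₂) (by norm_num)
  refine ⟨p₁, ?_⟩
  intro p _ hp A B hA hB χ hχ β hβ
  have hL := hp₁ p hp
  have hpp : (0 : ℝ) < p := Nat.cast_pos.2 (Fact.out : p.Prime).pos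
  have hp1 : (1 : ℝ) ≤ p := by
    have := (Fact.out : p.Prime).one_lt.le
    exact_mod_cast this
  set Z : ZMod p → ℂ := fun a => ∑ b ∈ B, β b * χ (a + b) with hZ
  have hT := hTMO p χ hχ 1 B β hβ
  have hT1 : ∑ u : ZMod p, ‖Z u‖ ^ 2 ≤ (B.card : ℝ) * p + (B.card : ℝ) ^ 2 * (2 * Real.sqrt p) := by
    have e1 : ∀ u : ZMod p, ‖Z u‖ ^ 2 = ‖∑ a ∈ B, β a * χ (a + u)‖ ^ (2 * 1) := by
      intro u
      rw [hZ, mul_one]
      dsimp only
      have : ∀ b ∈ B, β b * χ (u + b) = β b * χ (b + u) := fun b _ => by rw [add_comm]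
      rw [Finset.sum_congr rfl this]
    rw [Finset.sum_congr rfl fun u _ => e1 u]
    refine hT.trans (le_of_eq ?_)
    push_cast
    ring
  have hA0 : (0 : ℝ) ≤ A.card := Nat.cast_nonneg _
  have hB0 : (0 : ℝ) < B.card := lt_of_lt_of_le (Real.rpow_pos_of_pos hpp _) hB
  have hCS : (∑ a ∈ A, ‖Z a‖) ^ 2 ≤ (A.card : ℝ) * ∑ u : ZMod p, ‖Z u‖ ^ 2 := by
    have h1 : (∑ a ∈ A, ‖Z a‖) ^ 2 ≤ (A.card : ℝ) * ∑ a ∈ A, ‖Z a‖ ^ 2 :=
      sq_sum_le_card_mul_sum_sq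
    refine h1.trans (mul_le_mul_of_nonneg_left ?_ hA0)
    exact Finset.sum_le_sum_of_subset_of_nonneg (Finset.subset_univ _) fun _ _ _ => sq_nonneg _
  have e18 : (p : ℝ) ^ (1 / 8 : ℝ) * (p : ℝ) ^ (1 / 8 : ℝ) = (p : ℝ) ^ (1 / 4 : ℝ) := by
    rw [← Real.rpow_add hpp]; norm_num
  have e14 : (p : ℝ) ^ (1 / 4 : ℝ) * (p : ℝ) ^ (1 / 4 : ℝ) = Real.sqrt p := by
    rw [← Real.rpow_add hpp, Real.sqrt_eq_rpow]; norm_num
  have esq : Real.sqrt p * Real.sqrt p = p := Real.mul_self_sqrt hpp.le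
  have h8pos : 0 < (p : ℝ) ^ (1 / 8 : ℝ) := Real.rpow_pos_of_pos hpp _
  have h4pos : 0 < (p : ℝ) ^ (1 / 4 : ℝ) := Real.rpow_pos_of_pos hpp _
  have h4one : 1 ≤ (p : ℝ) ^ (1 / 4 : ℝ) := Real.one_le_rpow hp1 (by norm_num)
  have hspos : 0 < Real.sqrt p := Real.sqrt_pos.2 hpp
  have hneg : (p : ℝ) ^ (-(1 / 16 : ℝ)) * (p : ℝ) ^ (-(1 / 16 : ℝ)) * (p : ℝ) ^ (1 / 8 : ℝ) = 1 := by
    rw [← Real.rpow_add hpp, ← Real.rpow_add hpp]; norm_num
  have hn0 : 0 < (p : ℝ) ^ (-(1 / 16 : ℝ)) := Real.rpow_pos_of_pos hpp _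
  -- main inequality
  set q : ℝ := (p : ℝ) ^ (1 / 8 : ℝ) with hq
  set r : ℝ := (p : ℝ) ^ (1 / 4 : ℝ) with hr
  set n : ℝ := (p : ℝ) ^ (-(1 / 16 : ℝ)) with hn
  have hmain : (B.card : ℝ) * p + (B.card : ℝ) ^ 2 * (2 * Real.sqrt p) ≤
      n ^ 2 * ((A.card : ℝ) * (B.card : ℝ) ^ 2) := by
    have h1 : (B.card : ℝ) * p * (4 * C₂) ≤ (B.card : ℝ) ^ 2 * p := by
      have h2 : 4 * C₂ ≤ (B.card : ℝ) := by
        refine hL.trans ((?_ : q ≤ r).trans hB)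
        rw [← e18]
        refine le_mul_of_one_le_left h8pos.le ?_
        exact (by linarith : (1 : ℝ) ≤ 4 * C₂).trans hL
      nlinarith [mul_pos hB0 hpp]
    -- stronger: use B ≥ q * q and q ≥ 4 C₂
    have h3 : (B.card : ℝ) * p * (q * (4 * C₂)) ≤ (B.card : ℝ) ^ 2 * p := by
      have h4 : q * (4 * C₂) ≤ (B.card : ℝ) := by
        refine le_trans ?_ hB
        rw [← e18]
        exact mul_le_mul_of_nonneg_left hL h8pos.le
      have := mul_le_mul_of_nonneg_left h4 (mul_pos hB0 hpp).le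
      calc (B.card : ℝ) * p * (q * (4 * C₂)) ≤ (B.card : ℝ) * p * (B.card : ℝ) := this
        _ = (B.card : ℝ) ^ 2 * p := by ring
    have h5 : (B.card : ℝ) ^ 2 * (2 * Real.sqrt p) * (q * (4 * C₂)) ≤
        (B.card : ℝ) ^ 2 * (2 * p) := by
      have h6 : Real.sqrt p * (q * (4 * C₂)) ≤ p := by
        have h7 : q * (4 * C₂) ≤ Real.sqrt p := by
          rw [← e14]
          calc q * (4 * C₂) ≤ q * q := mul_le_mul_of_nonneg_left hL h8pos.le
            _ = r := e18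
            _ ≤ r * r := le_mul_of_one_le_left h4pos.le h4one
        calc Real.sqrt p * (q * (4 * C₂)) ≤ Real.sqrt p * Real.sqrt p :=
              mul_le_mul_of_nonneg_left h7 hspos.le
          _ = p := esq
      calc (B.card : ℝ) ^ 2 * (2 * Real.sqrt p) * (q * (4 * C₂))
          = (B.card : ℝ) ^ 2 * (2 * (Real.sqrt p * (q * (4 * C₂)))) := by ring
        _ ≤ (B.card : ℝ) ^ 2 * (2 * p) := by
            refine mul_le_mul_of_nonneg_left ?_ (sq_nonneg _)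
            linarith
    have h8 : (n ^ 2 * ((A.card : ℝ) * (B.card : ℝ) ^ 2)) * (q * (4 * C₂)) =
        4 * (C₂ * (A.card : ℝ)) * (B.card : ℝ) ^ 2 := by
      calc (n ^ 2 * ((A.card : ℝ) * (B.card : ℝ) ^ 2)) * (q * (4 * C₂))
          = (n * n * q) * (4 * (C₂ * (A.card : ℝ)) * (B.card : ℝ) ^ 2) := by ring
        _ = _ := by rw [hneg, one_mul]
    have h9 : 4 * (p : ℝ) * (B.card : ℝ) ^ 2 ≤ 4 * (C₂ * (A.card : ℝ)) * (B.card : ℝ) ^ 2 := by
      refine mul_le_mul_of_nonneg_right ?_ (sq_nonneg _)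
      linarith
    have hpos : 0 < q * (4 * C₂) := by positivity
    refine le_of_mul_le_mul_right ?_ hpos
    rw [h8]
    refine le_trans ?_ h9
    calc ((B.card : ℝ) * p + (B.card : ℝ) ^ 2 * (2 * Real.sqrt p)) * (q * (4 * C₂))
        = (B.card : ℝ) * p * (q * (4 * C₂)) + (B.card : ℝ) ^ 2 * (2 * Real.sqrt p) * (q * (4 * C₂)) := by
          ring
      _ ≤ (B.card : ℝ) ^ 2 * p + (B.card : ℝ) ^ 2 * (2 * p) := add_le_add h3 h5
      _ ≤ 4 * (p : ℝ) * (B.card : ℝ) ^ 2 := by nlinarith [mul_pos hpp (pow_pos hB0 2)]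
  have hfin : (∑ a ∈ A, ‖Z a‖) ^ 2 ≤ (n * ((A.card : ℝ) * (B.card : ℝ))) ^ 2 := by
    calc (∑ a ∈ A, ‖Z a‖) ^ 2 ≤ (A.card : ℝ) * ∑ u : ZMod p, ‖Z u‖ ^ 2 := hCS
      _ ≤ (A.card : ℝ) * (n ^ 2 * ((A.card : ℝ) * (B.card : ℝ) ^ 2)) :=
          mul_le_mul_of_nonneg_left (hT1.trans hmain) hA0
      _ = (n * ((A.card : ℝ) * (B.card : ℝ))) ^ 2 := by ring
  exact (pow_le_pow_iff_left₀ (Finset.sum_nonneg fun _ _ => norm_nonneg _) (by positivity)
    (by norm_num : (2 : ℕ) ≠ 0)).1 hfin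

theorem FNE (hFRE : FRE_stmt) (hCVR : CVR_stmt) (hPKC : PKC_stmt) (hTMO : TMO_stmt)
    (hSHG : SHG_stmt) (hTHC : THC_stmt) : FNE_stmt := by
  intro K ε hε
  obtain ⟨d, C₁, hC₁, hF⟩ := FND_cov hFRE hCVR hPKC K
  set e : ℝ := min ε (1 / 24) with he
  have he0 : 0 < e := lt_min hε (by norm_num)
  have heε : e ≤ ε := min_le_left _ _
  have he24 : e ≤ 1 / 24 := min_le_right _ _
  obtain ⟨c', δ', p₁, hc', hδ', hT⟩ := hTHC d (e / 2) (by positivity)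
  set c : ℝ := min (c' / 4) (1 / 24) with hc
  have hc0 : 0 < c := lt_min (by positivity) (by norm_num)
  have hcc : c ≤ c' / 4 := min_le_left _ _
  have hc24 : c ≤ 1 / 24 := min_le_right _ _
  have hC₁0 : 0 < C₁ := by linarith
  obtain ⟨p₂, hp₂⟩ := FNE_dense hTMO (C₁ * max K 1)
    (by
      have := le_max_right K 1
      nlinarith)
  obtain ⟨p₃, hp₃⟩ := FNB_large (e / 2) C₁ (by positivity)
  obtain ⟨p₄, hp₄⟩ := FNB_large (1 / 48) (5 ^ d) (by norm_num)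
  obtain ⟨p₅, hp₅⟩ := FNB_large (c' / 4) (C₁ ^ 2) (by positivity)
  obtain ⟨p₆, hp₆⟩ := FNB_large (c' / 4) (25 ^ d) (by positivity)
  obtain ⟨p₇, hp₇⟩ := FNB_large (δ' / 2) (25 ^ d * C₁ ^ 2) (by positivity)
  refine ⟨c, min (δ' / 2) (1 / 16), p₁ + p₂ + p₃ + p₄ + p₅ + p₆ + p₇, hc0,
    lt_min (by positivity) (by norm_num), ?_⟩
  intro p _ hp A B Cs hA hCs hCK hAK hCε hB hCB χ hχ β hβ
  have hl₃ := hp₃ p (by omega)
  have hl₄ := hp₄ p (by omega)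
  have hl₅ := hp₅ p (by omega)
  have hl₆ := hp₆ p (by omega)
  have hl₇ := hp₇ p (by omega)
  have hpp : (0 : ℝ) < p := Nat.cast_pos.2 (Fact.out : p.Prime).pos
  have hp1 : (1 : ℝ) ≤ p := by
    have := (Fact.out : p.Prime).one_lt.le
    exact_mod_cast this
  have hA0 : (0 : ℝ) < A.card := by exact_mod_cast hA.card_pos
  have hC0 : (0 : ℝ) < Cs.card := by exact_mod_cast hCs.card_pos
  have hB0 : (0 : ℝ) < B.card := lt_of_lt_of_le (Real.rpow_pos_of_pos hpp _) hB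
  obtain ⟨P, Y, hP, hYc, hPc, hcP, hAY⟩ := hF p A Cs hCs hCK hAK
  have hexp : ∀ x y : ℝ, x ≤ y → (p : ℝ) ^ x ≤ (p : ℝ) ^ y := fun x y h =>
    Real.rpow_le_rpow_of_exponent_le hp1 h
  by_cases hP0 : P 0 = Finset.univ
  · -- dense case
    have h1 : (Finset.univ : Finset (ZMod p)).card ≤ (P 1).card := by
      rw [← hP0]
      exact Finset.card_le_card (hP.mono (by norm_num))
    have h2 : (p : ℝ) ≤ ((P 1).card : ℝ) := by
      rw [Finset.card_univ, ZMod.card] at h1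
      exact_mod_cast h1
    have h3 : (p : ℝ) ≤ C₁ * max K 1 * (A.card : ℝ) := by
      have h4 : (Cs.card : ℝ) ≤ max K 1 * (A.card : ℝ) := by
        have h5 : Cs.card ≤ (A + Cs).card := Finset.card_le_card_add_left hA
        have h6 : (Cs.card : ℝ) ≤ ((A + Cs).card : ℝ) := by exact_mod_cast h5
        exact h6.trans (hAK.trans (mul_le_mul_of_nonneg_right (le_max_left _ _) hA0.le))
      calc (p : ℝ) ≤ ((P 1).card : ℝ) := h2
        _ ≤ C₁ * (Cs.card : ℝ) := hPc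
        _ ≤ C₁ * (max K 1 * (A.card : ℝ)) := mul_le_mul_of_nonneg_left h4 hC₁0.le
        _ = C₁ * max K 1 * (A.card : ℝ) := by ring
    have h7 : (p : ℝ) ^ (1 / 4 : ℝ) ≤ (B.card : ℝ) := (hexp _ _ (by linarith)).trans hB
    refine (hp₂ p (by omega) A B h3 h7 χ hχ β hβ).trans ?_
    refine mul_le_mul_of_nonneg_right ?_ (by positivity)
    refine hexp _ _ ?_
    have := min_le_right (δ' / 2) (1 / 16 : ℝ)
    linarith
  · -- the main case
    set V : ℝ := min ((p : ℝ) ^ (1 / 3 : ℝ)) (B.card : ℝ) with hV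
    have hV1 : (p : ℝ) ^ (1 / 3 - c) ≤ V := le_min (hexp _ _ (by linarith)) hB
    have hV2 : 1 ≤ V := (Real.one_le_rpow hp1 (by linarith)).trans hV1
    have hV0 : 0 < V := by linarith
    obtain ⟨P', X, hP', hP'V, hor, hXc, hPX⟩ := hSHG p d P hP hP0 V hV2
    set N : ℝ := ((P' 1).card : ℝ) with hN
    have hN0 : 0 ≤ N := Nat.cast_nonneg _
    have hVB : V ≤ (B.card : ℝ) := min_le_right _ _
    have hV3 : V ≤ (p : ℝ) ^ (1 / 3 : ℝ) := min_le_left _ _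
    -- hypotheses of THC
    have g1 : (p : ℝ) ^ (1 / 4 + e / 2) ≤ N := by
      rcases hor with h | h
      · have h1 : (p : ℝ) ^ (1 / 4 + e / 2) * C₁ ≤ N * C₁ := by
          calc (p : ℝ) ^ (1 / 4 + e / 2) * C₁ ≤ (p : ℝ) ^ (1 / 4 + e / 2) * (p : ℝ) ^ (e / 2) :=
                mul_le_mul_of_nonneg_left hl₃ (Real.rpow_nonneg hpp.le _)
            _ = (p : ℝ) ^ (1 / 4 + e) := by
                rw [← Real.rpow_add hpp]; congr 1; ring
            _ ≤ (p : ℝ) ^ (1 / 4 + ε) := hexp _ _ (by linarith)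
            _ ≤ (Cs.card : ℝ) := hCε
            _ ≤ C₁ * ((P 1).card : ℝ) := hcP
            _ ≤ C₁ * N := mul_le_mul_of_nonneg_left h hC₁0.le
            _ = N * C₁ := mul_comm _ _
        exact le_of_mul_le_mul_right h1 hC₁0
      · have h5 : (0 : ℝ) < 5 ^ d := by positivity
        have h1 : (p : ℝ) ^ (1 / 4 + e / 2) * 5 ^ d ≤ N * 5 ^ d := by
          calc (p : ℝ) ^ (1 / 4 + e / 2) * 5 ^ d ≤ (p : ℝ) ^ (1 / 4 + e / 2) * (p : ℝ) ^ (1 / 48 : ℝ) :=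
                mul_le_mul_of_nonneg_left hl₄ (Real.rpow_nonneg hpp.le _)
            _ = (p : ℝ) ^ (1 / 4 + e / 2 + 1 / 48) := by rw [← Real.rpow_add hpp]
            _ ≤ (p : ℝ) ^ (1 / 3 - c) := hexp _ _ (by linarith)
            _ ≤ V := hV1
            _ ≤ 5 ^ d * N := h
            _ = N * 5 ^ d := mul_comm _ _
        exact le_of_mul_le_mul_right h1 h5
    have g2 : N ^ 3 ≤ (p : ℝ) := by
      calc N ^ 3 ≤ V ^ 3 := pow_le_pow_left₀ hN0 hP'V 3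
        _ ≤ ((p : ℝ) ^ (1 / 3 : ℝ)) ^ 3 := pow_le_pow_left₀ hV0.le hV3 3
        _ = (p : ℝ) := by
            rw [← Real.rpow_natCast, ← Real.rpow_mul hpp.le]
            norm_num
    have g3 : N ≤ (p : ℝ) ^ c' * (B.card : ℝ) := by
      calc N ≤ (B.card : ℝ) := hP'V.trans hVB
        _ ≤ (p : ℝ) ^ c' * (B.card : ℝ) :=
            le_mul_of_one_le_left hB0.le (Real.one_le_rpow hp1 hc'.le)
    have g4 : (p : ℝ) ^ (1 - c') ≤ N ^ 2 * (B.card : ℝ) := by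
      rcases hor with h | h
      · have h2 : (Cs.card : ℝ) ≤ C₁ * N := hcP.trans (mul_le_mul_of_nonneg_left h hC₁0.le)
        have h3 : (Cs.card : ℝ) ^ 2 ≤ (C₁ * N) ^ 2 := pow_le_pow_left₀ hC0.le h2 2
        have h1 : (p : ℝ) ^ (1 - c') * C₁ ^ 2 ≤ (N ^ 2 * (B.card : ℝ)) * C₁ ^ 2 := by
          calc (p : ℝ) ^ (1 - c') * C₁ ^ 2 ≤ (p : ℝ) ^ (1 - c') * (p : ℝ) ^ (c' / 4) :=
                mul_le_mul_of_nonneg_left hl₅ (Real.rpow_nonneg hpp.le _)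
            _ = (p : ℝ) ^ (1 - c' + c' / 4) := by rw [← Real.rpow_add hpp]
            _ ≤ (p : ℝ) ^ (1 - c) := hexp _ _ (by linarith)
            _ ≤ (Cs.card : ℝ) ^ 2 * (B.card : ℝ) := hCB
            _ ≤ (C₁ * N) ^ 2 * (B.card : ℝ) := mul_le_mul_of_nonneg_right h3 hB0.le
            _ = (N ^ 2 * (B.card : ℝ)) * C₁ ^ 2 := by ring
        exact le_of_mul_le_mul_right h1 (by positivity)
      · have h25 : (25 : ℝ) ^ d = (5 ^ d) ^ 2 := by
          rw [← pow_mul, mul_comm, pow_mul]; norm_num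
        have h1 : (p : ℝ) ^ (1 - c') * 25 ^ d ≤ (N ^ 2 * (B.card : ℝ)) * 25 ^ d := by
          calc (p : ℝ) ^ (1 - c') * 25 ^ d ≤ (p : ℝ) ^ (1 - c') * (p : ℝ) ^ (c' / 4) :=
                mul_le_mul_of_nonneg_left hl₆ (Real.rpow_nonneg hpp.le _)
            _ = (p : ℝ) ^ (1 - c' + c' / 4) := by rw [← Real.rpow_add hpp]
            _ ≤ (p : ℝ) ^ ((1 / 3 - c) + (1 / 3 - c) + (1 / 3 - c)) := hexp _ _ (by linarith)
            _ = (p : ℝ) ^ (1 / 3 - c) * (p : ℝ) ^ (1 / 3 - c) * (p : ℝ) ^ (1 / 3 - c) := by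
                rw [Real.rpow_add hpp, Real.rpow_add hpp]
            _ ≤ V * V * (B.card : ℝ) := by
                refine mul_le_mul (mul_le_mul hV1 hV1 (Real.rpow_nonneg hpp.le _) hV0.le) hB
                  (Real.rpow_nonneg hpp.le _) (by positivity)
            _ ≤ (5 ^ d * N) * (5 ^ d * N) * (B.card : ℝ) :=
                mul_le_mul_of_nonneg_right (mul_le_mul h h hV0.le (by positivity)) hB0.le
            _ = (N ^ 2 * (B.card : ℝ)) * 25 ^ d := by rw [h25]; ring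
        exact le_of_mul_le_mul_right h1 (by positivity)
    have hTC := hT p (by omega) P' hP' g1 g2 B g3 g4 χ hχ
    -- the covering
    set F : Finset (ZMod p) := Y + X with hFd
    have hcov : ∀ a ∈ A, ∃ f ∈ F, a - f ∈ P' 1 := by
      intro a ha
      obtain ⟨y, hy, hay⟩ := hAY a ha
      obtain ⟨x, hx, hax⟩ := hPX _ hay
      refine ⟨y + x, Finset.add_mem_add hy hx, ?_⟩
      rwa [← sub_sub]
    have hFc : (F.card : ℝ) * N ≤ 25 ^ d * C₁ ^ 2 * (A.card : ℝ) := by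
      have h1 : (F.card : ℝ) ≤ (Y.card : ℝ) * (X.card : ℝ) := by
        exact_mod_cast Finset.card_add_le
      calc (F.card : ℝ) * N ≤ (Y.card : ℝ) * (X.card : ℝ) * N := mul_le_mul_of_nonneg_right h1 hN0
        _ = (Y.card : ℝ) * ((X.card : ℝ) * N) := by ring
        _ ≤ (Y.card : ℝ) * (25 ^ d * ((P 1).card : ℝ)) :=
            mul_le_mul_of_nonneg_left hXc (Nat.cast_nonneg _)
        _ ≤ (Y.card : ℝ) * (25 ^ d * (C₁ * (Cs.card : ℝ))) := by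
            refine mul_le_mul_of_nonneg_left ?_ (Nat.cast_nonneg _)
            exact mul_le_mul_of_nonneg_left hPc (by positivity)
        _ = 25 ^ d * C₁ * ((Y.card : ℝ) * (Cs.card : ℝ)) := by ring
        _ ≤ 25 ^ d * C₁ * (C₁ * (A.card : ℝ)) :=
            mul_le_mul_of_nonneg_left hYc (by positivity)
        _ = 25 ^ d * C₁ ^ 2 * (A.card : ℝ) := by ring
    set Z : ZMod p → ℂ := fun a => ∑ b ∈ B, β b * χ (a + b) with hZ
    have hsum : ∑ a ∈ A, ‖Z a‖ ≤ ∑ f ∈ F, ∑ x ∈ P' 1, ‖Z (x + f)‖ := by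
      choose! g hg1 hg2 using hcov
      have h1 : ∑ a ∈ A, ‖Z a‖ = ∑ f ∈ F, ∑ a ∈ A with g a = f, ‖Z a‖ :=
        (Finset.sum_fiberwise_of_maps_to (fun a ha => hg1 a ha) _).symm
      rw [h1]
      refine Finset.sum_le_sum fun f _ => ?_
      have h2 : ∑ a ∈ A with g a = f, ‖Z a‖ =
          ∑ x ∈ (A.filter fun a => g a = f).image (fun a => a - f), ‖Z (x + f)‖ := by
        rw [Finset.sum_image (fun x _ y _ hxy => sub_left_injective hxy)]
        refine Finset.sum_congr rfl fun a _ => ?_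
        rw [sub_add_cancel]
      rw [h2]
      refine Finset.sum_le_sum_of_subset_of_nonneg ?_ fun _ _ _ => norm_nonneg _
      intro x hx
      rw [Finset.mem_image] at hx
      obtain ⟨a, ha, rfl⟩ := hx
      rw [Finset.mem_filter] at ha
      have := hg2 a ha.1
      rwa [ha.2] at this
    have hterm : ∀ f ∈ F, ∑ x ∈ P' 1, ‖Z (x + f)‖ ≤ (p : ℝ) ^ (-δ') * (N * (B.card : ℝ)) := by
      intro f _
      have h1 := hTC f β hβ
      refine le_trans (le_of_eq ?_) h1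
      refine Finset.sum_congr rfl fun x _ => ?_
      rw [hZ]
      dsimp only
      have h2 : ∀ b ∈ B, β b * χ (x + f + b) = β b * χ (x + b + f) := fun b _ => by
        rw [add_right_comm]
      rw [Finset.sum_congr rfl h2]
    have hδ0 : 0 < (p : ℝ) ^ (-δ') := Real.rpow_pos_of_pos hpp _
    have hAB : 0 ≤ (A.card : ℝ) * (B.card : ℝ) := by positivity
    calc ∑ a ∈ A, ‖Z a‖ ≤ ∑ f ∈ F, ∑ x ∈ P' 1, ‖Z (x + f)‖ := hsum
      _ ≤ ∑ f ∈ F, (p : ℝ) ^ (-δ') * (N * (B.card : ℝ)) := Finset.sum_le_sum hterm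
      _ = (p : ℝ) ^ (-δ') * (((F.card : ℝ) * N) * (B.card : ℝ)) := by
          rw [Finset.sum_const, nsmul_eq_mul]; ring
      _ ≤ (p : ℝ) ^ (-δ') * ((25 ^ d * C₁ ^ 2 * (A.card : ℝ)) * (B.card : ℝ)) := by
          refine mul_le_mul_of_nonneg_left ?_ hδ0.le
          exact mul_le_mul_of_nonneg_right hFc hB0.le
      _ = (25 ^ d * C₁ ^ 2) * (p : ℝ) ^ (-δ') * ((A.card : ℝ) * (B.card : ℝ)) := by ring
      _ ≤ (p : ℝ) ^ (δ' / 2) * (p : ℝ) ^ (-δ') * ((A.card : ℝ) * (B.card : ℝ)) :=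
          mul_le_mul_of_nonneg_right (mul_le_mul_of_nonneg_right hl₇ hδ0.le) hAB
      _ = (p : ℝ) ^ (-(δ' / 2)) * ((A.card : ℝ) * (B.card : ℝ)) := by
          rw [← Real.rpow_add hpp]
          congr 2
          ring
      _ ≤ (p : ℝ) ^ (-(min (δ' / 2) (1 / 16))) * ((A.card : ℝ) * (B.card : ℝ)) := by
          refine mul_le_mul_of_nonneg_right (hexp _ _ ?_) hAB
          have := min_le_left (δ' / 2) (1 / 16 : ℝ)
          linarith

end Pool.Agent.helper85.PG
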